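import Pool.Agent.Lib.MP_3248c9_gt.Hy.CFin
import Pool.Agent.Lib.MP_3248c9_gt.Hy.Geo

/-!
# Chen's biharmonic conjecture for hypersurfaces

Every biharmonic hypersurface of a Euclidean space (of any dimension, with no completeness or
curvature condition) is minimal. This is the frozen statement `S12989` with `m = n + 1`.
-/

set_option autoImplicit false

namespace Pool.Agent.Lib.MP_3248c9_gt.Old.Hypersurfaces

open Pool.Agent.Lib.MP_3248c9_gt.Hy
open scoped ContDiff

theorem result (n : ℕ) (U : Set (EuclideanSpace ℝ (Fin n)))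
    (f : EuclideanSpace ℝ (Fin n) → EuclideanSpace ℝ (Fin (n + 1))) (hU : IsOpen U)
    (hf : ContDiffOn ℝ ∞ f U) (himm : ∀ x ∈ U, Function.Injective (fderiv ℝ f x))
    (hbi : ∀ x ∈ U, laplaceBeltrami (inducedMetric f)
      (laplaceBeltrami (inducedMetric f) f) x = 0) :
    ∀ x ∈ U, laplaceBeltrami (inducedMetric f) f x = 0 :=
  Imc.minimal (f := f) ⟨hU, hf, himm⟩ hbi

end Pool.Agent.Lib.MP_3248c9_gt.Old.Hypersurfaces
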